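import Pool.Agent.Y262.EG.Stm

/-!
# Project EG, the statement CV: integration on the unit tangent bundle
-/

set_option autoImplicit false

open Set Filter Topology MeasureTheory
open scoped ContDiff

namespace Pool.Agent.Y405.EG

open Pool.Agent.Y262.EG

/-- the Liouville measure on an injective piece is an image measure -/
theorem restrict_eq {P : Type} [MetricSpace P] [MeasurableSpace P] [BorelSpace P]
    (q q' : Y → P) (m : Measure P) (w : Y → ℝ) (B : Set Y) (hB : MeasurableSet B)
    (hq' : Measurable q') (hqq : ∀ p ∈ B, q' p = q p)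
    (hm : ∀ B' : Set Y, MeasurableSet B' → B' ⊆ B →
      m (q '' B') = ∫⁻ p in B', ENNReal.ofReal (w p)) :
    m.restrict (q '' B) =
      (((volume : Measure Y).restrict B).withDensity fun p => ENNReal.ofReal (w p)).map q' := by
  refine Measure.ext fun S hS => ?_
  have h1 : S ∩ q '' B = q '' (q' ⁻¹' S ∩ B) := by
    ext x
    constructor
    · rintro ⟨hx, p, hp, rfl⟩
      exact ⟨p, ⟨by rw [mem_preimage, hqq p hp]; exact hx, hp⟩, rfl⟩
    · rintro ⟨p, ⟨hp1, hp2⟩, rfl⟩
      rw [mem_preimage, hqq p hp2] at hp1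
      exact ⟨hp1, p, hp2, rfl⟩
  have h2 : MeasurableSet (q' ⁻¹' S) := hq' hS
  rw [Measure.restrict_apply hS, h1, hm _ (h2.inter hB) inter_subset_right,
    Measure.map_apply hq' hS, withDensity_apply _ h2, Measure.restrict_restrict h2]

theorem cv : StCV := by
  intro M P _ _ _ _ _ _ Ω φ pr q m hUT hL B hB hBΩ hq
  have hqc : ContinuousOn q B := hUT.contq.mono hBΩ
  have hqB : MeasurableSet (q '' B) := hB.image_of_continuousOn_injOn hqc hq
  refine ⟨hqB, ?_⟩
  classical
  -- measurable versions
  obtain ⟨q', hq'⟩ : ∃ q' : Y → P, q' = B.piecewise q fun _ => q 0 := ⟨_, rfl⟩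
  have hq'm : Measurable q' := by
    rw [hq']
    exact hqc.measurable_piecewise continuousOn_const hB
  have hqq : ∀ p ∈ B, q' p = q p := by
    intro p hp
    rw [hq', piecewise_eq_of_mem _ _ _ hp]
  have hφ : ContinuousOn (fun p : Y => Real.exp (2 * φ p.1)) B := by
    have h1 : ContinuousOn (fun p : Y => φ p.1) B :=
      hUT.smooth.continuousOn.comp continuous_fst.continuousOn fun p hp => hBΩ hp
    exact Real.continuous_exp.comp_continuousOn (continuousOn_const.mul h1)
  obtain ⟨w, hw⟩ : ∃ w : Y → ℝ, w = B.piecewise (fun p : Y => Real.exp (2 * φ p.1)) fun _ => 0 :=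
    ⟨_, rfl⟩
  have hwm : Measurable w := by
    rw [hw]
    exact hφ.measurable_piecewise continuousOn_const hB
  have hww : ∀ p ∈ B, w p = Real.exp (2 * φ p.1) := by
    intro p hp
    rw [hw, piecewise_eq_of_mem _ _ _ hp]
  have hres := restrict_eq q q' m w B hB hq'm hqq (by
    intro B' hB' hsub
    rw [hL B' hB' (hsub.trans hBΩ) (hq.mono hsub)]
    refine setLIntegral_congr_fun hB' fun p hp => ?_
    show _ = ENNReal.ofReal (w p)
    rw [hww p (hsub hp)])
  constructor
  · intro G hG
    rw [hres, lintegral_map hG hq'm]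
    refine (lintegral_withDensity_eq_lintegral_mul _ hwm.ennreal_ofReal (hG.comp hq'm)).trans ?_
    refine setLIntegral_congr_fun hB fun p hp => ?_
    show ENNReal.ofReal (w p) * G (q' p) = _
    rw [hqq p hp, hww p hp, mul_comm]
  · intro G hG
    rw [hres, integral_map hq'm.aemeasurable hG.aestronglyMeasurable]
    have h1 : (fun p => ENNReal.ofReal (w p)) = fun p => ((Real.toNNReal (w p) : NNReal) : ENNReal) :=
      rfl
    rw [h1, integral_withDensity_eq_integral_smul hwm.real_toNNReal]
    refine setIntegral_congr_fun hB fun p hp => ?_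
    show Real.toNNReal (w p) • G (q' p) = _
    rw [hqq p hp, NNReal.smul_def, hww p hp, Real.coe_toNNReal _ (Real.exp_pos _).le, smul_eq_mul,
      mul_comm]

end Pool.Agent.Y405.EG
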